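import Pool.Agent.TH117.NH.Blk
import Pool.Agent.W550.B.Defs

/-!
# Extension of the coefficients
-/

open CategoryTheory AlgebraicGeometry Finset TensorProduct Polynomial

set_option autoImplicit false

universe u v w

namespace Pool.Agent.TH117.NH

open Pool.Agent.H914 Pool.Agent.H914.VarClass Pool.Agent.H914.VarClass.Obj
  Pool.Agent.H914.WeilCohomology Pool.Agent.W534

section Alg

variable {K : Type*} [Field K] {V : Type*} [Ring V] [Algebra K V] {L : Type*} [Field L]
  [Algebra K L]

/-- The kernel after an extension of the coefficients. -/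
lemma ker_base (T : Module.End K V) {x : L ⊗[K] V} (hx : T.baseChange L x = 0) :
    x ∈ (LinearMap.ker T).baseChange L := by
  have h1 := Module.Flat.ker_lTensor_eq (S := L) (M := L) T
  have h2 : x ∈ LinearMap.ker (AlgebraTensorModule.lTensor L L T) := hx
  rw [h1] at h2
  obtain ⟨y, rfl⟩ := h2
  have h3 : ∀ y : L ⊗[K] (LinearMap.ker T),
      AlgebraTensorModule.lTensor L L (LinearMap.ker T).subtype y ∈
        (LinearMap.ker T).baseChange L := by
    intro y
    induction y using TensorProduct.induction_on with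
    | zero => rw [map_zero]; exact Submodule.zero_mem _
    | add a b ha hb => rw [map_add]; exact Submodule.add_mem _ ha hb
    | tmul l v => exact Submodule.tmul_mem_baseChange_of_mem _ v.2
  exact h3 y

lemma base_ext {T S : L ⊗[K] V →ₗ[L] L ⊗[K] V} (h : ∀ (l : L) (v : V), T (l ⊗ₜ v) = S (l ⊗ₜ v)) :
    T = S := by
  apply LinearMap.ext
  intro x
  induction x using TensorProduct.induction_on with
  | zero => rw [map_zero, map_zero]
  | add a b ha hb => rw [map_add, map_add, ha, hb]
  | tmul l v => exact h l v

lemma baseChange_pow (T : Module.End K V) (n : ℕ) :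
    ((T.baseChange L : Module.End L (L ⊗[K] V)) ^ n) = (T ^ n).baseChange L := by
  induction n with
  | zero =>
    rw [pow_zero, pow_zero]
    apply base_ext
    intro l v
    rfl
  | succ n ih =>
    rw [pow_succ, pow_succ, ih]
    apply base_ext
    intro l v
    rfl

lemma algSmul (c : K) (y : L ⊗[K] V) : c • y = (algebraMap K L c) • y :=
  (algebraMap_smul L c y).symm

lemma aeval_base (T : Module.End K V) (P : K[X]) :
    aeval (T.baseChange L : Module.End L (L ⊗[K] V)) (P.map (algebraMap K L)) =
      (aeval T P).baseChange L := by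
  induction P using Polynomial.induction_on' with
  | add p q hp hq =>
    rw [Polynomial.map_add, map_add, map_add, hp, hq]
    exact (LinearMap.baseChange_add (A := L) (aeval T p) (aeval T q)).symm
  | monomial n c =>
    rw [Polynomial.map_monomial, aeval_monomial, aeval_monomial, ← Algebra.smul_def,
      ← Algebra.smul_def, baseChange_pow]
    apply base_ext
    intro l v
    rw [LinearMap.smul_apply, LinearMap.baseChange_tmul, LinearMap.baseChange_tmul,
      LinearMap.smul_apply, tmul_smul, algSmul]

/-- Semisimplicity after an extension of the coefficients. -/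
lemma semisimple_base [CharZero K] [Module.Finite K V] {T : Module.End K V}
    (h : T.IsSemisimple) :
    Module.End.IsSemisimple (T.baseChange L : Module.End L (L ⊗[K] V)) := by
  have h1 : Squarefree (minpoly K T) := h.minpoly_squarefree
  have h2 : (minpoly K T).Separable := PerfectField.separable_iff_squarefree.mpr h1
  have h3 : Squarefree ((minpoly K T).map (algebraMap K L)) := (h2.map).squarefree
  refine Module.End.isSemisimple_of_squarefree_aeval_eq_zero h3 ?_
  rw [aeval_base, minpoly.aeval]
  exact LinearMap.baseChange_zero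

/-- An eigenvector of a semisimple operator, in the extension of a subspace. -/
lemma eigenvalue_base {T : Module.End K V} {p : Submodule K V} {α : L} {a : L ⊗[K] V}
    (ha : a ∈ p.baseChange L) (hne : a ≠ 0) (h1 : T.baseChange L a = α • a) {P : K[X]}
    (hP : ∀ a ∈ p, aeval T P a = 0) : aeval α P = 0 := by
  have h2 : aeval (T.baseChange L : Module.End L (L ⊗[K] V)) (P.map (algebraMap K L)) a =
      (aeval α P) • a := by
    have h3 : ∀ Q : L[X], aeval (T.baseChange L : Module.End L (L ⊗[K] V)) Q a =
        (Q.eval α) • a := by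
      intro Q
      induction Q using Polynomial.induction_on' with
      | add p q hp hq => rw [map_add, LinearMap.add_apply, hp, hq, eval_add, add_smul]
      | monomial n c =>
        rw [aeval_monomial, eval_monomial, ← Algebra.smul_def, LinearMap.smul_apply]
        have h4 : ∀ n : ℕ, ((T.baseChange L : Module.End L (L ⊗[K] V)) ^ n) a = α ^ n • a := by
          intro n
          induction n with
          | zero => rw [pow_zero, pow_zero, one_smul]; rfl
          | succ n ih =>
            rw [pow_succ, Module.End.mul_apply, h1, map_smul, ih, smul_smul, pow_succ, mul_comm]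
        rw [h4, smul_smul]
    rw [h3, eval_map_algebraMap]
  rw [aeval_base] at h2
  have h5 : (aeval T P).baseChange L a = 0 := by
    refine base_induction (K := K) (A := V) (L := L) (p := p)
      (P := fun a => (aeval T P).baseChange L a = 0) ?_ ?_ ?_ ha
    · rw [map_zero]
    · intro x y hx hy
      rw [map_add, hx, hy, add_zero]
    · intro l b hb
      rw [LinearMap.baseChange_tmul, hP b hb, tmul_zero]
  rw [h5] at h2
  exact (smul_eq_zero.1 h2.symm).resolve_right hne

end Alg

variable {k : Type u} [Field k] {𝒱 : VarClass k} {ops : CycleOps 𝒱}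
  {W : WeilCohomology.{u, v} ops} {X Y Z : 𝒱.Obj} {L : Type v} [Field L] [Algebra W.K L]

lemma mapBase_apply {K : Type*} [Field K] {A B : Type*} [Ring A] [Algebra K A] [Ring B]
    [Algebra K B] {L : Type*} [Field L] [Algebra K L] (f : A →ₐ[K] B) (x : L ⊗[K] A) :
    mapBase L f x = f.toLinearMap.baseChange L x := by
  induction x using TensorProduct.induction_on with
  | zero => rw [map_zero, map_zero]
  | add a b ha hb => rw [map_add, map_add, ha, hb]
  | tmul l v => rfl

/-- The extension of a system of Frobenius endomorphisms. -/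
noncomputable def baseFrob {p : ℕ} (Φ : FrobSystem W p) (L : Type v) [Field L] [Algebra W.K L] :
    FrobSystem (baseW W L) p where
  Fr := Φ.Fr
  e := Φ.e
  p_pos := Φ.p_pos
  e_pos := Φ.e_pos
  comm f := Φ.comm f
  cyc := by
    intro X j z hz
    obtain ⟨s, hs, h⟩ := Φ.cyc hz
    refine ⟨s, hs, ?_⟩
    have h1 : mapBase L (W.map (W534.iter (Φ.Fr X) s)) ((1 : L) ⊗ₜ[W.K] W.cl X z) =
        ((p : L) ^ (Φ.e X * s * j)) • ((1 : L) ⊗ₜ[W.K] W.cl X z) := by
      rw [mapBase_apply, LinearMap.baseChange_tmul, AlgHom.toLinearMap_apply, h, tmul_smul,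
        algSmul, map_pow, map_natCast]
    exact h1
  deg := by
    intro X c hc
    have h1 : ∀ c ∈ (W.gr X (2 * X.dim)).baseChange L, mapBase L (W.map (Φ.Fr X)) c =
        ((p : L) ^ (Φ.e X * X.dim)) • c := by
      intro c hc
      refine base_induction (K := W.K) (A := W.H X) (L := L) (p := W.gr X (2 * X.dim))
        (P := fun c => mapBase L (W.map (Φ.Fr X)) c = ((p : L) ^ (Φ.e X * X.dim)) • c)
        ?_ ?_ ?_ hc
      · rw [map_zero, smul_zero]
      · intro x y hx hy
        rw [map_add, hx, hy, smul_add]
      · intro l a ha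
        rw [mapBase_apply, LinearMap.baseChange_tmul, AlgHom.toLinearMap_apply, Φ.deg ha,
          tmul_smul, algSmul, map_pow, map_natCast]
    exact h1 c hc

/-- The span of the classes of cycles after the extension. -/
noncomputable def spanL (W : WeilCohomology.{u, v} ops) (L : Type v) [Field L] [Algebra W.K L]
    (X : 𝒱.Obj) (j : ℤ) : Submodule L (L ⊗[W.K] W.H X) :=
  Submodule.span L {c | ∃ p : ℕ, (p : ℤ) = j ∧ ∃ z, X.IsCyc p z ∧ (1 : L) ⊗ₜ[W.K] W.cl X z = c}

lemma span_base {j : ℤ} {l : L} {a : W.H X} (ha : a ∈ spanCycles W X j) :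
    l ⊗ₜ[W.K] a ∈ spanL W L X j := by
  induction ha using Submodule.span_induction with
  | mem a ha =>
    obtain ⟨p, hp, z, hz, rfl⟩ := ha
    have h1 : l ⊗ₜ[W.K] W.cl X z = l • ((1 : L) ⊗ₜ[W.K] W.cl X z) := by
      rw [smul_tmul', smul_eq_mul, mul_one]
    rw [h1]
    exact Submodule.smul_mem _ _ (Submodule.subset_span ⟨p, hp, z, hz, rfl⟩)
  | zero =>
    rw [tmul_zero]
    exact Submodule.zero_mem _
  | add a b _ _ ha hb =>
    rw [tmul_add]
    exact Submodule.add_mem _ ha hb
  | smul c a _ ha =>
    rw [tmul_smul, algSmul]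
    exact Submodule.smul_mem _ _ ha

lemma tate_aux {p : ℕ} {Φ : FrobSystem W p} {j : ℕ} (h : TateIn Φ X j) {c : L ⊗[W.K] W.H X}
    (hc : c ∈ (W.gr X (2 * j)).baseChange L) {s : ℕ} (hs : 0 < s)
    (hF : mapBase L (W.map (W534.iter (Φ.Fr X) s)) c = ((p : L) ^ (Φ.e X * s * j)) • c) :
    c ∈ spanL W L X j := by
  set N : Module.End W.K (W.H X) := (W.map (W534.iter (Φ.Fr X) s)).toLinearMap -
    ((p : W.K) ^ (Φ.e X * s * j)) • LinearMap.id with hN
  have h0 : N.baseChange L = (W.map (W534.iter (Φ.Fr X) s)).toLinearMap.baseChange L -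
      ((p : L) ^ (Φ.e X * s * j)) • LinearMap.id := by
    apply base_ext
    intro l v
    rw [LinearMap.baseChange_tmul, hN, LinearMap.sub_apply, LinearMap.sub_apply, tmul_sub,
      LinearMap.baseChange_tmul, LinearMap.smul_apply, LinearMap.smul_apply, LinearMap.id_apply,
      LinearMap.id_apply, tmul_smul, algSmul, map_pow, map_natCast]
  have h1 : N.baseChange L c = 0 := by
    rw [h0, LinearMap.sub_apply, ← mapBase_apply, hF, LinearMap.smul_apply, LinearMap.id_apply,
      sub_self]
  have h2 := ker_base N h1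
  have h3 : ∀ x ∈ (LinearMap.ker N).baseChange L,
      (proj (W.isInternal X) (2 * j)).baseChange L x ∈ spanL W L X (j : ℤ) := by
    intro x hx
    refine base_induction (K := W.K) (A := W.H X) (L := L) (p := LinearMap.ker N)
      (P := fun x => (proj (W.isInternal X) (2 * j)).baseChange L x ∈ spanL W L X (j : ℤ))
      ?_ ?_ ?_ hx
    · rw [map_zero]; exact Submodule.zero_mem _
    · intro x y hx hy
      rw [map_add]; exact Submodule.add_mem _ hx hy
    · intro l a ha
      rw [LinearMap.baseChange_tmul]
      apply span_base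
      apply h
      refine ⟨proj_mem' _ _, s, hs, ?_⟩
      have h4 : W.map (W534.iter (Φ.Fr X) s) a = ((p : W.K) ^ (Φ.e X * s * j)) • a := by
        rw [LinearMap.mem_ker, hN, LinearMap.sub_apply, sub_eq_zero] at ha
        exact ha
      rw [proj_frob, h4, map_smul]
  have h4 : (proj (W.isInternal X) (2 * j)).baseChange L c = c := by
    refine base_induction (K := W.K) (A := W.H X) (L := L) (p := W.gr X (2 * j))
      (P := fun c => (proj (W.isInternal X) (2 * j)).baseChange L c = c) ?_ ?_ ?_ hc
    · rw [map_zero]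
    · intro x y hx hy
      rw [map_add, hx, hy]
    · intro l a ha
      rw [LinearMap.baseChange_tmul, proj_same _ ha]
  have h5 := h3 c h2
  rw [h4] at h5
  exact h5

/-- The Tate conjecture after an extension of the coefficients. -/
lemma tateIn_base {p : ℕ} {Φ : FrobSystem W p} {j : ℕ} (h : TateIn Φ X j) :
    TateIn (baseFrob Φ L) X j := by
  rintro c ⟨hc, s, hs, hF⟩
  exact tate_aux (L := L) h hc hs hF

/-- The eigenvalues after the extension. -/
lemma weights_base {p : ℕ} {Φ : FrobSystem W p} {τ : L ≃ₐ[W.K] L}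
    (h : ConjugatesFrobenius W X (Φ.Fr X) (p ^ Φ.e X) τ) (i : ℕ) (α : L)
    (a : L ⊗[W.K] W.H X) (ha : a ∈ (W.gr X i).baseChange L) (hne : a ≠ 0)
    (hF : mapBase L (W.map (Φ.Fr X)) a = α • a) : τ α * α = (p : L) ^ (Φ.e X * i) := by
  rw [mapBase_apply] at hF
  rw [h i α (fun P hP => eigenvalue_base ha hne hF hP), Nat.cast_pow, ← pow_mul]

/-- **Blocks after the extension.** -/
theorem hasBlocks_base [IsAlgClosed L] {p : ℕ} (Φ : FrobSystem W p) (τ : L ≃ₐ[W.K] L)
    (hss : Module.End.IsSemisimple (W.map (Φ.Fr X)).toLinearMap)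
    (hτ : ConjugatesFrobenius W X (Φ.Fr X) (p ^ Φ.e X) τ)
    (hT : ∀ j, TateIn Φ (X.prod X) j) : HasBlocks (semiLin W L τ) X := by
  have : IsAlgClosed (baseW W L).K := inferInstanceAs (IsAlgClosed L)
  refine hasBlocks_of_tate (W := baseW W L) (baseFrob Φ L) ?_ (semiLin W L τ) ?_ ?_
    fun j => tateIn_base (hT j)
  · exact Nat.cast_ne_zero.2 Φ.p_pos.ne'
  · have h1 : frobOp (baseFrob Φ L) X = (W.map (Φ.Fr X)).toLinearMap.baseChange L := by
      apply LinearMap.ext
      intro x
      exact mapBase_apply (W.map (Φ.Fr X)) x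
    rw [h1]
    exact semisimple_base (L := L) hss
  · intro i α a ha hne hF
    have h2 : ∀ (α : L) (a : L ⊗[W.K] W.H X), a ∈ (W.gr X i).baseChange L → a ≠ 0 →
        mapBase L (W.map (Φ.Fr X)) a = α • a → τ α * α = (p : L) ^ (Φ.e X * i) :=
      fun α a ha hne hF => weights_base hτ i α a ha hne hF
    exact h2 α a ha hne hF

end Pool.Agent.TH117.NH
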