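import Pool.Agent.H914R2.WBase2
import Pool.Agent.H914R2.Blocks
import Pool.Agent.H281R3.HT.DBlk
import Pool.Agent.W534.TateDefs

/-!
# Blocks from eigenspaces of the Frobenius endomorphism
-/

open CategoryTheory AlgebraicGeometry Finset

set_option autoImplicit false

universe u v w

namespace Pool.Agent.TH117.NH

open Pool.Agent.H914 Pool.Agent.H914.VarClass Pool.Agent.H914.VarClass.Obj
  Pool.Agent.H914.WeilCohomology Pool.Agent.W534 Pool.Agent.H281R3.HT

variable {k : Type u} [Field k] {𝒱 : VarClass k} {ops : CycleOps 𝒱}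
  {W : WeilCohomology.{u, v} ops} {X Y Z : 𝒱.Obj}

/-- Blocks from pairs of dual subspaces permuted by a semilinear automorphism. -/
theorem hasBlocks_sig (S : SemiLin W) {κ : Type*} [Fintype κ]
    (B B' : κ → Submodule W.K (W.H Y)) (d : κ → ℕ) (t : κ → κ) (ht : Function.Injective t)
    (hdeg : ∀ s, B s ≤ W.gr Y (d s))
    (hnd : ∀ s, ∀ x ∈ B s, (∀ y ∈ B' s, bil W Y y x = 0) → x = 0)
    (hnd' : ∀ s, ∀ y ∈ B' s, (∀ x ∈ B s, bil W Y y x = 0) → y = 0)
    (horth : ∀ s t, s ≠ t → ∀ x ∈ B s, ∀ y ∈ B' t, bil W Y y x = 0)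
    (htot : ∀ r, (∀ s, ∀ y ∈ B' s, bil W Y y r = 0) → r = 0)
    (halg : ∀ s, ∀ x ∈ B s, ∀ y ∈ B' s, (bil W Y y).smulRight x ∈ KOp W Y Y 0)
    (hσ : ∀ s, ∀ x ∈ B s, S.σ Y x ∈ B (t s))
    (hherm : ∀ s, B s ≠ ⊥ → ∃ (δ : ℤ) (θ : Module.End W.K (W.H Y)), θ ∈ KOp W Y Y δ ∧
      ∃ x ∈ B s, ∃ x' ∈ B s, W.tr Y (x * θ (S.σ Y x')) ≠ 0) :
    HasBlocks S Y := by
  classical
  choose N c c' hc hc' hcc hu hu' using fun s => exists_dual_families (bil W Y) (B' s) (B s)
    (hnd' s) (hnd s)
  set e : κ → Module.End W.K (W.H Y) := fun s => ∑ i, (bil W Y (c s i)).smulRight (c' s i)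
    with he
  have hea : ∀ s z, e s z = ∑ i, bil W Y (c s i) z • c' s i := by
    intro s z
    rw [he]
    beta_reduce
    rw [LinearMap.sum_apply]
    rfl
  have heB : ∀ s z, e s z ∈ B s := by
    intro s z
    rw [hea]
    exact Submodule.sum_mem _ (fun i _ => Submodule.smul_mem _ _ (hc' s i))
  have hex : ∀ s, ∀ x ∈ B s, e s x = x := by
    intro s x hx
    rw [hea]
    exact (hu' s x hx).symm
  have hex0 : ∀ s t, s ≠ t → ∀ x ∈ B s, e t x = 0 := by
    intro s t hst x hx
    rw [hea]
    apply Finset.sum_eq_zero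
    intro i _
    rw [horth s t hst x hx _ (hc t i), zero_smul]
  have hbil : ∀ s, ∀ y ∈ B' s, ∀ z, bil W Y y (e s z) = bil W Y y z := by
    intro s y hy z
    rw [hea, map_sum]
    conv_rhs => rw [hu s y hy]
    rw [map_sum, LinearMap.sum_apply]
    apply Finset.sum_congr rfl
    intro i _
    rw [map_smul, map_smul, LinearMap.smul_apply, smul_eq_mul, smul_eq_mul, mul_comm]
  have hsum : ∑ s, e s = 1 := by
    apply LinearMap.ext
    intro z
    rw [Module.End.one_apply, ← sub_eq_zero]
    apply htot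
    intro t y hy
    rw [LinearMap.sum_apply, map_sub, map_sum, Finset.sum_eq_single t, hbil t y hy, sub_self]
    · intro s _ hs
      exact horth s t hs _ (heB s z) y hy
    · intro h0; exact absurd (Finset.mem_univ _) h0
  have hperm : ∀ s a, S.σ Y (e s a) = e (t s) (S.σ Y a) := by
    intro s a
    have h1 : a = ∑ s', e s' a := by
      have := congrArg (fun F => F a) hsum
      simp only [LinearMap.sum_apply, Module.End.one_apply] at this
      exact this.symm
    conv_rhs => rw [h1, map_sum, map_sum]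
    rw [Finset.sum_eq_single s]
    · exact (hex _ _ (hσ s _ (heB s a))).symm
    · intro s' _ hs'
      exact hex0 _ _ (fun h => hs' (ht h)) _ (hσ s' _ (heB s' a))
    · intro h0; exact absurd (Finset.mem_univ _) h0
  refine BlockData.hasBlocks (ι := {s // e s ≠ 0}) (e := fun s => e s) (d := fun s => d s) ?_
  refine ⟨?_, ?_, ?_, ?_, ?_, ?_⟩
  · rw [← hsum, ← Finset.sum_filter_ne_zero (s := Finset.univ) (f := e)]
    exact (Finset.sum_subtype (Finset.univ.filter (fun s => e s ≠ 0)) (by simp) e).symm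
  · intro s
    apply LinearMap.ext
    intro z
    exact hex _ _ (heB _ z)
  · intro s a
    exact hdeg _ (heB _ a)
  · intro s A
    have h1 : e s * A * e s = ∑ i, (bil W Y (c s i)).smulRight (e s (A (c' s i))) := by
      apply LinearMap.ext
      intro z
      rw [Module.End.mul_apply, Module.End.mul_apply, hea s z, map_sum, map_sum,
        LinearMap.sum_apply]
      apply Finset.sum_congr rfl
      intro i _
      rw [map_smul, map_smul, LinearMap.smulRight_apply]
    rw [h1]
    exact Submodule.sum_mem _ (fun i _ => halg s _ (heB _ _) _ (hc _ i))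
  · intro s
    refine ⟨⟨t s, fun h0 => s.2 ?_⟩, fun a => hperm s a⟩
    apply LinearMap.ext
    intro z
    apply S.inj
    rw [hperm, h0, LinearMap.zero_apply]
  · intro s
    have h1 : B s ≠ ⊥ := by
      intro h0
      apply s.2
      apply LinearMap.ext
      intro z
      have h2 := heB s z
      rw [h0, Submodule.mem_bot] at h2
      rw [h2, LinearMap.zero_apply]
    obtain ⟨δ, θ, hθ, x, hx, x', hx', hne⟩ := hherm s h1
    refine ⟨δ, θ, x, x', hθ, ?_⟩
    rw [hex _ _ hx, hex _ _ hx']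
    exact hne

/-- The action of the class `y × x` on cohomology. -/
lemma corr_ext_apply {i j : ℕ} {y x : W.H X} (hy : y ∈ W.gr X i) (hx : x ∈ W.gr X j) :
    W.corr (W.map (fst X X) y * W.map (snd X X) x) =
      ((-1 : W.K) ^ (j * (2 * X.dim - i))) • (bil W X y).smulRight x := by
  apply LinearMap.ext
  intro a
  refine gr_induction (W.isInternal X) (p := fun a =>
    W.corr (W.map (fst X X) y * W.map (snd X X) x) a =
      (((-1 : W.K) ^ (j * (2 * X.dim - i))) • (bil W X y).smulRight x) a) ?_ ?_ a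
  · intro l a ha
    rw [corr_apply, LinearMap.smul_apply, LinearMap.smulRight_apply, bil_apply, mul_assoc,
      W.comm (W.map_mem (snd X X) hx) (W.map_mem (fst X X) ha), mul_smul_comm, ← mul_assoc,
      ← map_mul (W.map (fst X X)), map_smul, W.push_snd]
    by_cases h : i + l = 2 * X.dim
    · have : l = 2 * X.dim - i := by omega
      rw [this]
    · rw [W.tr_eq_zero (W.mul_mem hy ha) h, zero_smul, smul_zero, smul_zero]
  · intro a b ha hb
    rw [map_add, map_add, ha, hb]

lemma rank_one_mem {i j r : ℕ} {y x : W.H X} (hy : y ∈ W.gr X i) (hx : x ∈ W.gr X j)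
    (h : W.map (fst X X) y * W.map (snd X X) x ∈ spanCycles W (X.prod X) (r : ℤ)) :
    (bil W X y).smulRight x ∈ KOp W X X ((r : ℤ) - X.dim) := by
  have h1 : W.corr (W.map (fst X X) y * W.map (snd X X) x) ∈ KOp W X X ((r : ℤ) - X.dim) := by
    rw [mem_KOp_iff]
    refine ⟨_, ?_, rfl⟩
    rwa [show (X.dim : ℤ) + (r - X.dim) = r by ring]
  rw [corr_ext_apply hy hx] at h1
  have h2 := Submodule.smul_mem _ ((-1 : W.K) ^ (j * (2 * X.dim - i))) h1
  rwa [smul_smul, ← mul_pow, neg_one_mul, neg_neg, one_pow, one_smul] at h2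

section Frob

variable {p : ℕ} (Φ : FrobSystem W p)

lemma map_iter_eig {f : X ⟶ X} {α : W.K} {a : W.H X} (h : W.map f a = α • a) (m : ℕ) :
    W.map (W534.iter f m) a = α ^ m • a := by
  induction m with
  | zero => rw [W534.iter, W.map_id, pow_zero, one_smul]
  | succ m ih =>
    rw [W534.iter, W.map_comp, h, map_smul, ih, smul_smul, pow_succ, mul_comm]

lemma iter_add (f : X ⟶ X) (m n : ℕ) : W534.iter f (m + n) = W534.iter f m ≫ W534.iter f n := by
  induction n with
  | zero => rw [add_zero, W534.iter]; exact (Category.comp_id _).symm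
  | succ n ih => rw [← add_assoc, W534.iter, ih, W534.iter, Category.assoc]

lemma iter_mul_comm {f : X ⟶ X} {g : Y ⟶ Y} {h : X ⟶ Y} {a b : ℕ}
    (hc : W534.iter f a ≫ h = h ≫ W534.iter g b) (m : ℕ) :
    W534.iter f (a * m) ≫ h = h ≫ W534.iter g (b * m) := by
  induction m with
  | zero =>
    rw [mul_zero, mul_zero, W534.iter, W534.iter]
    exact (Category.id_comp _).trans (Category.comp_id _).symm
  | succ m ih =>
    rw [Nat.mul_succ, Nat.mul_succ, iter_add, iter_add, Category.assoc, hc, ← Category.assoc, ih,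
      Category.assoc]

lemma e_mul_pos (X : 𝒱.Obj) : 0 < Φ.e X := Φ.e_pos X

/-- The external product of eigenvectors is a Tate class. -/
lemma isTate_ext {i j r : ℕ} {β α : W.K} {y x : W.H X} (hy : y ∈ W.gr X i) (hx : x ∈ W.gr X j)
    (hFy : W.map (Φ.Fr X) y = β • y) (hFx : W.map (Φ.Fr X) x = α • x) (hij : i + j = 2 * r)
    (hαβ : β * α = (p : W.K) ^ (Φ.e X * r)) :
    IsTate Φ (X.prod X) r (W.map (fst X X) y * W.map (snd X X) x) := by
  refine ⟨?_, ?_⟩
  · rw [← hij]
    exact W.mul_mem (W.map_mem _ hy) (W.map_mem _ hx)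
  · obtain ⟨a, b, ha, hab, hc⟩ := Φ.comm (fst X X)
    obtain ⟨a', b', ha', hab', hc'⟩ := Φ.comm (snd X X)
    refine ⟨a * a', Nat.mul_pos ha ha', ?_⟩
    have h1 := iter_mul_comm hc a'
    have h2 := iter_mul_comm hc' a
    rw [mul_comm a' a] at h2
    have hbb : b * a' = b' * a := by
      have h3 : (b * a') * Φ.e X = (b' * a) * Φ.e X := by
        calc (b * a') * Φ.e X = (b * Φ.e X) * a' := by ring
          _ = (a * Φ.e (X.prod X)) * a' := by rw [hab]
          _ = (a' * Φ.e (X.prod X)) * a := by ring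
          _ = (b' * Φ.e X) * a := by rw [hab']
          _ = (b' * a) * Φ.e X := by ring
      exact Nat.eq_of_mul_eq_mul_right (Φ.e_pos X) h3
    have e1 : W.map (W534.iter (Φ.Fr (X.prod X)) (a * a')) (W.map (fst X X) y) =
        β ^ (b * a') • W.map (fst X X) y := by
      rw [← W.map_comp, h1, W.map_comp, map_iter_eig hFy, map_smul]
    have e2 : W.map (W534.iter (Φ.Fr (X.prod X)) (a * a')) (W.map (snd X X) x) =
        α ^ (b * a') • W.map (snd X X) x := by
      rw [← W.map_comp, h2, W.map_comp, ← hbb, map_iter_eig hFx, map_smul]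
    rw [map_mul (W.map (W534.iter (Φ.Fr (X.prod X)) (a * a'))), e1, e2, smul_mul_assoc,
      mul_smul_comm, smul_smul, ← mul_pow, hαβ, ← pow_mul]
    congr 2
    calc Φ.e X * r * (b * a') = (b * Φ.e X) * (a' * r) := by ring
      _ = (a * Φ.e (X.prod X)) * (a' * r) := by rw [hab]
      _ = Φ.e (X.prod X) * (a * a') * r := by ring

/-- The operator of the Frobenius endomorphism. -/
noncomputable def frobOp (X : 𝒱.Obj) : Module.End W.K (W.H X) := (W.map (Φ.Fr X)).toLinearMap

lemma frobOp_apply (a : W.H X) : frobOp Φ X a = W.map (Φ.Fr X) a := rfl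

lemma tr_frob (a : W.H X) :
    W.tr X (W.map (Φ.Fr X) a) = (p : W.K) ^ (Φ.e X * X.dim) * W.tr X a := by
  refine gr_induction (W.isInternal X) (p := fun a =>
    W.tr X (W.map (Φ.Fr X) a) = (p : W.K) ^ (Φ.e X * X.dim) * W.tr X a) ?_ ?_ a
  · intro i a ha
    by_cases h : i = 2 * X.dim
    · subst h
      rw [Φ.deg ha, map_smul, smul_eq_mul]
    · rw [W.tr_eq_zero (W.map_mem _ ha) h, W.tr_eq_zero ha h, mul_zero]
  · intro a b ha hb
    rw [map_add, map_add, ha, hb, map_add, mul_add]

lemma proj_mem' {X : 𝒱.Obj} (j : ℕ) (a : W.H X) : proj (W.isInternal X) j a ∈ W.gr X j := by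
  refine gr_induction (W.isInternal X) (p := fun a => proj (W.isInternal X) j a ∈ W.gr X j) ?_ ?_ a
  · intro i a ha
    by_cases h : i = j
    · subst h
      rw [proj_same _ ha]
      exact ha
    · rw [proj_ne _ ha h]
      exact Submodule.zero_mem _
  · intro a b ha hb
    rw [map_add]
    exact Submodule.add_mem _ ha hb

lemma proj_frob (f : X ⟶ X) (j : ℕ) (a : W.H X) :
    W.map f (proj (W.isInternal X) j a) = proj (W.isInternal X) j (W.map f a) := by
  refine gr_induction (W.isInternal X) (p := fun a =>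
    W.map f (proj (W.isInternal X) j a) = proj (W.isInternal X) j (W.map f a)) ?_ ?_ a
  · intro i a ha
    by_cases h : i = j
    · subst h
      rw [proj_same _ ha, proj_same _ (W.map_mem f ha)]
    · rw [proj_ne _ ha h, proj_ne _ (W.map_mem f ha) h, map_zero]
  · intro a b ha hb
    rw [map_add, map_add, ha, hb, map_add, map_add]

variable [IsAlgClosed W.K]

/-- Induction over homogeneous eigenvectors. -/
lemma eig_induction (hss : (frobOp Φ X).IsSemisimple) {P : W.H X → Prop}
    (hP : ∀ (j : ℕ) (β : W.K) (a : W.H X), a ∈ W.gr X j → W.map (Φ.Fr X) a = β • a → P a)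
    (hadd : ∀ a b, P a → P b → P (a + b)) (z : W.H X) : P z := by
  have htop : ⨆ μ, (frobOp Φ X).eigenspace μ = ⊤ := by
    rw [← Module.End.iSup_maxGenEigenspace_eq_top (frobOp Φ X)]
    refine iSup_congr fun μ => ?_
    exact (hss.isFinitelySemisimple.maxGenEigenspace_eq_eigenspace μ).symm
  have h0 : P 0 := hP 0 0 0 (Submodule.zero_mem _) (by rw [map_zero, smul_zero])
  have key : ∀ (j : ℕ) (a : W.H X), P (proj (W.isInternal X) j a) := by
    intro j a
    have ha : a ∈ ⨆ μ, (frobOp Φ X).eigenspace μ := by rw [htop]; trivial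
    refine Submodule.iSup_induction _ (motive := fun a => P (proj (W.isInternal X) j a)) ha
      ?_ ?_ ?_
    · intro β a ha
      rw [Module.End.mem_eigenspace_iff, frobOp_apply] at ha
      refine hP j β _ (proj_mem' j a) ?_
      rw [proj_frob, ha, map_smul]
    · rw [map_zero]; exact h0
    · intro a b ha hb
      rw [map_add]
      exact hadd _ _ ha hb
  refine gr_induction (W.isInternal X) (p := P) ?_ hadd z
  intro i a ha
  have := key i a
  rwa [proj_same _ ha] at this

/-- Duality of eigenspaces. -/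
lemma exists_dual_eig (hss : (frobOp Φ X).IsSemisimple) {i : ℕ} {α : W.K} {x : W.H X}
    (hx : x ∈ W.gr X i) (hFx : W.map (Φ.Fr X) x = α • x) (hne : x ≠ 0) :
    ∃ (j : ℕ) (β : W.K) (z : W.H X), i + j = 2 * X.dim ∧ α * β = (p : W.K) ^ (Φ.e X * X.dim) ∧
      z ∈ W.gr X j ∧ W.map (Φ.Fr X) z = β • z ∧ W.tr X (x * z) ≠ 0 := by
  by_contra hcon
  push Not at hcon
  apply hne
  apply W.nondeg
  intro z
  refine eig_induction Φ hss (P := fun z => W.tr X (x * z) = 0) ?_ ?_ z
  · intro j β z hz hFz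
    by_contra h0
    have h1 : i + j = 2 * X.dim := by
      by_contra h2
      exact h0 (W.tr_eq_zero (W.mul_mem hx hz) h2)
    refine h0 (hcon j β z h1 ?_ hz hFz)
    have h3 := tr_frob Φ (x * z)
    rw [map_mul (W.map (Φ.Fr X)), hFx, hFz, smul_mul_assoc, mul_smul_comm, smul_smul, map_smul,
      smul_eq_mul] at h3
    exact mul_right_cancel₀ h0 h3
  · intro a b ha hb
    rw [mul_add, map_add, ha, hb, add_zero]

omit [IsAlgClosed W.K] in
lemma bil_swap_ne {i j : ℕ} {x z : W.H X} (hx : x ∈ W.gr X i) (hz : z ∈ W.gr X j)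
    (h : W.tr X (x * z) ≠ 0) : W.tr X (z * x) ≠ 0 := by
  rw [W.comm hx hz, map_smul, smul_eq_mul] at h
  exact right_ne_zero_of_mul h

/-- **Blocks for varieties with known Tate conjecture for the square.** -/
theorem hasBlocks_of_tate (hp : (p : W.K) ≠ 0) (S : SemiLin W)
    (hss : (frobOp Φ X).IsSemisimple)
    (hτ : ∀ (i : ℕ) (α : W.K) (a : W.H X), a ∈ W.gr X i → a ≠ 0 → W.map (Φ.Fr X) a = α • a →
      S.τ α * α = (p : W.K) ^ (Φ.e X * i))
    (hT : ∀ j, TateIn Φ (X.prod X) j) : HasBlocks S X := by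
  classical
  set q : W.K := (p : W.K) ^ (Φ.e X * X.dim) with hq
  have hq0 : q ≠ 0 := pow_ne_zero _ hp
  have hσF : ∀ a : W.H X, W.map (Φ.Fr X) (S.σ X a) = S.σ X (W.map (Φ.Fr X) a) := fun a =>
    (S.map _ a).symm
  have hσe : ∀ (α : W.K) (a : W.H X), W.map (Φ.Fr X) a = α • a →
      W.map (Φ.Fr X) (S.σ X a) = S.τ α • S.σ X a := by
    intro α a ha
    rw [hσF, ha, S.smul]
  have : Fintype (Module.End.Eigenvalues (frobOp Φ X)) := inferInstance
  let κ : Type v := Fin (2 * X.dim + 1) × Module.End.Eigenvalues (frobOp Φ X)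
  have hσev : ∀ α : Module.End.Eigenvalues (frobOp Φ X),
      Module.End.HasEigenvalue (frobOp Φ X) (S.τ α.1) := by
    intro α
    obtain ⟨v, hv⟩ := Module.End.HasEigenvalue.exists_hasEigenvector
      (show Module.End.HasEigenvalue (frobOp Φ X) α.1 from α.2)
    have h1 : W.map (Φ.Fr X) v = α.1 • v := Module.End.mem_eigenspace_iff.1 hv.1
    refine Module.End.hasEigenvalue_of_hasEigenvector (x := S.σ X v) ⟨?_, fun h0 => hv.2 (S.inj _ h0)⟩
    rw [Module.End.mem_eigenspace_iff]
    exact hσe _ _ h1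
  let t : κ → κ := fun s => (s.1, ⟨S.τ s.2.1, hσev s.2⟩)
  have ht : Function.Injective t := by
    rintro ⟨i, α⟩ ⟨j, β⟩ h
    have h1 : i = j := congrArg Prod.fst h
    have h2 : S.τ α.1 = S.τ β.1 := congrArg (fun x : κ => x.2.1) h
    have h3 : α = β := Subtype.ext (S.τ.injective h2)
    rw [h1, h3]
  let B : κ → Submodule W.K (W.H X) := fun s => W.gr X s.1 ⊓ (frobOp Φ X).eigenspace s.2.1
  let B' : κ → Submodule W.K (W.H X) := fun s =>
    W.gr X (2 * X.dim - s.1) ⊓ (frobOp Φ X).eigenspace (q / s.2.1)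
  have hB : ∀ s x, x ∈ B s ↔ x ∈ W.gr X s.1 ∧ W.map (Φ.Fr X) x = s.2.1 • x := by
    intro s x
    exact and_congr Iff.rfl Module.End.mem_eigenspace_iff
  have hB' : ∀ s x, x ∈ B' s ↔ x ∈ W.gr X (2 * X.dim - s.1) ∧
      W.map (Φ.Fr X) x = (q / s.2.1) • x := by
    intro s x
    exact and_congr Iff.rfl Module.End.mem_eigenspace_iff
  have hev0 : ∀ α : Module.End.Eigenvalues (frobOp Φ X), α.1 ≠ 0 := by
    intro α h0
    obtain ⟨v, hv⟩ := Module.End.HasEigenvalue.exists_hasEigenvector
      (show Module.End.HasEigenvalue (frobOp Φ X) α.1 from α.2)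
    have h1 : W.map (Φ.Fr X) v = α.1 • v := Module.End.mem_eigenspace_iff.1 hv.1
    obtain ⟨i, hi⟩ : ∃ i, proj (W.isInternal X) i v ≠ 0 := by
      by_contra hcon
      push Not at hcon
      apply hv.2
      have h2 : ∀ a : W.H X, (∀ i, proj (W.isInternal X) i a = 0) → a = 0 := by
        intro a ha
        apply W.nondeg
        intro c
        refine gr_induction (W.isInternal X) (p := fun c => W.tr X (a * c) = 0) ?_ ?_ c
        · intro l c hc
          have h3 : ∀ b : W.H X, W.tr X (b * c) =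
              W.tr X (proj (W.isInternal X) (2 * X.dim - l) b * c) := by
            intro b
            refine gr_induction (W.isInternal X) (p := fun b => W.tr X (b * c) =
              W.tr X (proj (W.isInternal X) (2 * X.dim - l) b * c)) ?_ ?_ b
            · intro m b hb
              by_cases hm : m = 2 * X.dim - l
              · subst hm
                rw [proj_same _ hb]
              · rw [proj_ne _ hb hm, zero_mul, map_zero]
                by_cases hl : l ≤ 2 * X.dim
                · exact W.tr_eq_zero (W.mul_mem hb hc) (by omega)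
                · rw [W.gr_eq_bot X l (by omega), Submodule.mem_bot] at hc
                  rw [hc, mul_zero, map_zero]
            · intro b b' hb hb'
              rw [add_mul, map_add, hb, hb', map_add, add_mul, map_add]
          rw [h3, ha, zero_mul, map_zero]
        · intro b b' hb hb'
          rw [mul_add, map_add, hb, hb', add_zero]
      exact h2 v hcon
    obtain ⟨j, β, z, -, h2, -, -, -⟩ := exists_dual_eig Φ hss (proj_mem' i v) (α := α.1)
      (by rw [proj_frob, h1, map_smul]) hi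
    rw [h0, zero_mul] at h2
    exact hq0 h2.symm
  refine hasBlocks_sig S B B' (fun s => s.1) t ht (fun s => inf_le_left) ?_ ?_ ?_ ?_ ?_ ?_ ?_
  · -- nondegeneracy
    intro s x hx h0
    by_contra hne
    rw [hB] at hx
    obtain ⟨j, β, z, h1, h2, h3, h4, h5⟩ := exists_dual_eig Φ hss hx.1 hx.2 hne
    refine bil_swap_ne hx.1 h3 h5 (h0 z ?_)
    rw [hB']
    have h6 : j = 2 * X.dim - s.1 := by omega
    have h7 : β = q / s.2.1 := by
      rw [eq_div_iff (hev0 s.2), mul_comm, h2]
    exact ⟨h6 ▸ h3, h7 ▸ h4⟩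
  · intro s y hy h0
    by_contra hne
    rw [hB'] at hy
    obtain ⟨j, β, z, h1, h2, h3, h4, h5⟩ := exists_dual_eig Φ hss hy.1 hy.2 hne
    refine h5 (h0 z ?_)
    rw [hB]
    have hs : (s.1 : ℕ) ≤ 2 * X.dim := by have := s.1.2; omega
    have h6 : j = s.1 := by omega
    have h7 : β = s.2.1 := by
      have h8 : q / s.2.1 * β = q := h2
      rw [div_mul_eq_mul_div, div_eq_iff (hev0 s.2)] at h8
      exact mul_left_cancel₀ hq0 h8
    exact ⟨h6 ▸ h3, h7 ▸ h4⟩
  · intro s s' hss' x hx y hy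
    rw [hB] at hx
    rw [hB'] at hy
    by_contra hne
    apply hss'
    have hs : (s'.1 : ℕ) ≤ 2 * X.dim := by have := s'.1.2; omega
    have h1 : 2 * X.dim - s'.1 + s.1 = 2 * X.dim := by
      by_contra h2
      exact hne (W.tr_eq_zero (W.mul_mem hy.1 hx.1) h2)
    have h3 : (s.1 : ℕ) = s'.1 := by omega
    have h4 := tr_frob Φ (y * x)
    rw [map_mul (W.map (Φ.Fr X)), hy.2, hx.2, smul_mul_assoc, mul_smul_comm, smul_smul, map_smul,
      smul_eq_mul] at h4
    have h5 := mul_right_cancel₀ hne h4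
    have h6 : s.2.1 = s'.2.1 := by
      have h8 : q / s'.2.1 * s.2.1 = q := h5
      rw [div_mul_eq_mul_div, div_eq_iff (hev0 s'.2)] at h8
      exact mul_left_cancel₀ hq0 h8
    exact Prod.ext (Fin.ext h3) (Subtype.ext h6)
  · -- totality
    intro r hr
    apply nondeg_right
    intro y
    refine eig_induction Φ hss (P := fun y => W.tr X (y * r) = 0) ?_ ?_ y
    · intro j β y hy hFy
      by_cases hy0 : y = 0
      · rw [hy0, zero_mul, map_zero]
      obtain ⟨j', β', z, h1, h2, h3, h4, h5⟩ := exists_dual_eig Φ hss hy hFy hy0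
      have hz0 : z ≠ 0 := by
        rintro rfl
        rw [mul_zero, map_zero] at h5
        exact h5 rfl
      have hev : Module.End.HasEigenvalue (frobOp Φ X) β' :=
        Module.End.hasEigenvalue_of_hasEigenvector (x := z)
          ⟨Module.End.mem_eigenspace_iff.2 h4, hz0⟩
      have hj' : j' < 2 * X.dim + 1 := by omega
      refine hr (⟨j', hj'⟩, ⟨β', hev⟩) y ?_
      rw [hB']
      have hβ' : β' ≠ 0 := hev0 ⟨β', hev⟩
      have h6 : (2 * X.dim - j' : ℕ) = j := by omega
      have h7 : q / β' = β := by rw [div_eq_iff hβ', h2]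
      refine ⟨?_, ?_⟩
      · change y ∈ W.gr X (2 * X.dim - j')
        rw [h6]; exact hy
      · change W.map (Φ.Fr X) y = (q / β') • y
        rw [h7]; exact hFy
    · intro a b ha hb
      rw [add_mul, map_add, ha, hb, add_zero]
  · -- algebraicity
    intro s x hx y hy
    rw [hB] at hx
    rw [hB'] at hy
    have hs : (s.1 : ℕ) ≤ 2 * X.dim := by have := s.1.2; omega
    have h1 := hT X.dim _ (isTate_ext Φ hy.1 hx.1 hy.2 hx.2 (by omega)
      (by rw [div_mul_cancel₀ _ (hev0 s.2)]))
    have h2 := rank_one_mem hy.1 hx.1 h1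
    rwa [sub_self] at h2
  · intro s x hx
    rw [hB] at hx ⊢
    exact ⟨S.gr hx.1, hσe _ _ hx.2⟩
  · intro s hne
    obtain ⟨x, hx, hx0⟩ := Submodule.exists_mem_ne_zero_of_ne_bot hne
    rw [hB] at hx
    have hs : (s.1 : ℕ) ≤ 2 * X.dim := by have := s.1.2; omega
    have hτs := hτ s.1 s.2.1 x hx.1 hx0 hx.2
    obtain ⟨j, β, w, h1, h2, h3, h4, h5⟩ := exists_dual_eig Φ hss hx.1 hx.2 hx0
    have hσx0 : S.σ X x ≠ 0 := fun h0 => hx0 (S.inj _ h0)
    obtain ⟨j', β', y, h1', h2', h3', h4', h5'⟩ := exists_dual_eig Φ hss (S.gr hx.1)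
      (hσe _ _ hx.2) hσx0
    have hjj : j' + j = 2 * j := by omega
    have hprod : β' * β = (p : W.K) ^ (Φ.e X * j) := by
      have h6 : (S.τ s.2.1 * s.2.1) * (β' * β) = q * q := by
        calc (S.τ s.2.1 * s.2.1) * (β' * β) = (S.τ s.2.1 * β') * (s.2.1 * β) := by ring
          _ = q * q := by rw [h2, h2']
      rw [hτs] at h6
      have h7 : (p : W.K) ^ (Φ.e X * s.1) * (p : W.K) ^ (Φ.e X * j) = q * q := by
        rw [hq, ← pow_add, ← pow_add, ← mul_add, ← mul_add, h1, two_mul]
      exact mul_left_cancel₀ (pow_ne_zero _ hp) (h6.trans h7.symm)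
    have h8 := hT j _ (isTate_ext Φ h3' h3 h4' h4 hjj hprod)
    refine ⟨_, _, rank_one_mem h3' h3 h8, x, (hB s x).2 hx, x, (hB s x).2 hx, ?_⟩
    rw [LinearMap.smulRight_apply, mul_smul_comm, map_smul, smul_eq_mul, bil_apply]
    exact mul_ne_zero (bil_swap_ne (S.gr hx.1) h3' h5') h5

end Frob

end Pool.Agent.TH117.NH
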