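import Pool.Agent.W534.TateDefs
import Pool.Agent.W550.B.Defs

/-!
# Varieties whose square satisfies the strong Tate conjecture
-/

set_option autoImplicit false

universe u v

namespace Pool.Agent.TH117.NH

open Pool.Agent.H914 Pool.Agent.H914.VarClass Pool.Agent.H914.VarClass.Obj
  Pool.Agent.H914.WeilCohomology Pool.Agent.W534 Pool.Agent.W550.B

variable {k : Type u} [Field k] {𝒱 : VarClass k} {ops : CycleOps 𝒱}
  {W : WeilCohomology.{u, v} ops}

/-- The Frobenius endomorphism of `X` acts semisimply on the cohomology, and the Tate conjecture
holds for `X × X`, in all codimensions and over all finite extensions. -/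
structure StrongTateSquare {p : ℕ} (Φ : FrobSystem W p) (X : 𝒱.Obj) : Prop where
  semisimple : Module.End.IsSemisimple (pullOp W (Φ.Fr X))
  tate : ∀ j, TateIn Φ (X.prod X) j

end Pool.Agent.TH117.NH
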