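import Pool.Agent.TH117.NH.Base
import Pool.Agent.TH117.NH.Defs

/-!
# Numerical and homological equivalence for varieties generated by varieties whose squares satisfy the
Tate conjecture
-/

open CategoryTheory AlgebraicGeometry Finset TensorProduct Polynomial

set_option autoImplicit false

universe u v w

namespace Pool.Agent.TH117.NH

open Pool.Agent.H914 Pool.Agent.H914.VarClass Pool.Agent.H914.VarClass.Obj
  Pool.Agent.H914.WeilCohomology Pool.Agent.W534 Pool.Agent.W550.B

variable {k : Type u} [Field k] {𝒱 : VarClass k} {ops : CycleOps 𝒱}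
  {W : WeilCohomology.{u, v} ops} {X Y Z : 𝒱.Obj}

/-- The image of a numerically trivial cycle under a correspondence is homologically trivial if the
conjecture `D` holds for the target. -/
lemma cycMap_eq_zero (hP : HomEqNum W X) {a j : ℕ} {u : (Y.prod X).Cycles}
    (hu : (Y.prod X).IsCyc a u) {z : Y.Cycles} (hz : Y.IsCyc j z) (hj : j ≤ Y.dim)
    (hnum : ∀ w, Y.IsCyc (Y.dim - j) w → Y.V.degCycle (ops.mul z w) = 0) :
    cycMap W u (W.cl Y z) = 0 := by
  have hcyc := ops.mul_mem hu (ops.pull_mem (fst Y X) hz)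
  have hcl : cycMap W u (W.cl Y z) =
      W.push (snd Y X) (W.cl _ (ops.mul u (ops.pull (fst Y X) z))) := by
    rw [cycMap, corr_apply, W.cl_mul, W.cl_pull]
  by_cases hneg : a + j < Y.dim
  · have h1 := W.push_mem (snd Y X) (W.cl_mem hcyc)
    rw [dim_prod, grZ_of_neg (by push_cast; omega)] at h1
    rw [hcl]
    exact (Submodule.mem_bot _).1 h1
  have hpush := ops.push_mem (snd Y X) hcyc (q := a + j - Y.dim) (by rw [dim_prod]; omega)
  rw [hcl, ← W.cl_push]
  by_cases hbig : a + j - Y.dim ≤ X.dim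
  · refine hP _ hbig _ hpush fun w hw => ?_
    have h1 := ops.mul_mem hpush hw
    rw [show a + j - Y.dim + (X.dim - (a + j - Y.dim)) = X.dim by omega] at h1
    have h2 := ops.mul_mem hu (ops.pull_mem (snd Y X) hw)
    have h3 := ops.push_mem (fst Y X) h2 (q := Y.dim - j) (by rw [dim_prod]; omega)
    have h4 := ops.mul_mem hz h3
    rw [show j + (Y.dim - j) = Y.dim by omega] at h4
    have e1 : (X.V.degCycle (ops.mul (ops.push (snd Y X) (ops.mul u (ops.pull (fst Y X) z))) w) :
        W.K) = (Y.V.degCycle (ops.mul z (ops.push (fst Y X) (ops.mul u (ops.pull (snd Y X) w)))) :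
          W.K) := by
      rw [← W.tr_cl h1, ← W.tr_cl h4, W.cl_mul, W.cl_mul, W.cl_push, W.cl_push, W.cl_mul,
        W.cl_mul, W.cl_pull, W.cl_pull, W.even_comm (W.cl_mem hz), W.tr_push, W.tr_push, mul_assoc,
        mul_assoc, W.even_comm (W.map_mem (fst Y X) (W.cl_mem hz))]
    rw [hnum _ h3] at e1
    exact_mod_cast e1
  · have h1 := W.cl_mem hpush
    rw [W.gr_eq_bot X _ (by omega)] at h1
    exact (Submodule.mem_bot _).1 h1

/-- The conjecture `D` passes to direct summands. -/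
theorem homEqNum_of_isSummand {r : ℕ} {P : Fin r → 𝒱.Obj} (hP : ∀ j, HomEqNum W (P j))
    (hY : IsSummand W Y P) : HomEqNum W Y := by
  obtain ⟨u, v, h, hsum⟩ := hY
  intro j hj z hz hnum
  rw [← hsum (W.cl Y z)]
  apply Finset.sum_eq_zero
  intro i _
  obtain ⟨a, b, -, hu, -⟩ := h i
  rw [cycMap_eq_zero (hP i) hu hz hj hnum, map_zero]

/-- Blocks for products. -/
lemma hasBlocks_isProductOf {S : SemiLin W} {T : Set 𝒱.Obj} (h : ∀ X ∈ T, HasBlocks S X)
    {Q : 𝒱.Obj} (hQ : IsProductOf T Q) : HasBlocks S Q := by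
  induction hQ with
  | base hX => exact h _ hX
  | prod _ _ h1 h2 => exact h1.prod h2

/-- **Numerical and homological equivalence.** -/
theorem homEqNum_main (W : WeilCohomology.{u, v} ops) {p : ℕ} (Φ : FrobSystem W p)
    (L : Type v) [Field L] [Algebra W.K L] [IsAlgClosed L] (τ : L ≃ₐ[W.K] L) (T : Set 𝒱.Obj)
    (hT : ∀ P ∈ T, StrongTateSquare Φ P)
    (hτ : ∀ P ∈ T, ConjugatesFrobenius W P (Φ.Fr P) (p ^ Φ.e P) τ) (Y : 𝒱.Obj)
    (hY : IsGenerated W T Y) : HomEqNum W Y := by
  have h1 : ∀ Q, IsProductOf T Q → HomEqNum W Q := fun Q hQ =>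
    homEqNum_base (homEqNum_of_blocks (hasBlocks_isProductOf
      (fun P hP => hasBlocks_base Φ τ (hT P hP).semisimple (hτ P hP) (hT P hP).tate) hQ))
  rcases hY with ⟨Q, hQ, h⟩ | ⟨r, Q, hQ, h⟩
  · exact (h1 Q hQ).image h
  · exact homEqNum_of_isSummand (fun j => h1 _ (hQ j)) h

end Pool.Agent.TH117.NH
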